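import Pool.Agent.Lib.H40Y.P
import Pool.Agent.Lib.H40F.Main
import Pool.Agent.Lib.H40F.C8
import Pool.Agent.Lib.StrongMax.Kernel
import Pool.Agent.Lib.StrongMax.LocFin
import Pool.Agent.Lib.StrongMax.FinEdges

/-!
# H40Z, file N: a class of graphs without strongly maximal sets, closed under three kinds of cores
-/

namespace Pool.Agent.H40Z

open Pool.Agent.StrongMax Pool.Agent.H40Y Cardinal

universe u

/-- The class `Bad`: base classes and three closure steps (the short cycle core, the set of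
vertices of large degree, the components in which a given component embeds). -/
inductive Bad : ∀ {W : Type u}, SimpleGraph W → Prop
  | fin {W : Type u} {H : SimpleGraph W} (hne : ∃ a b, H.Adj a b) (hfin : H.edgeSet.Finite)
      (hst : ¬ ∃ z, ∀ a b, H.Adj a b → a = z ∨ b = z) : Bad H
  | locFin {W : Type u} {H : SimpleGraph W} (hlf : ∀ x, (H.neighborSet x).Finite)
      (hinf : ¬ H.edgeSet.Finite) : Bad H
  | forest {W : Type u} {H : SimpleGraph W} (hac : H.IsAcyclic)
      (hcnt : ∀ C : H.ConnectedComponent, C.supp.Countable) (hinf : ¬ H.edgeSet.Finite) : Bad H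
  | stable {W : Type u} {H : SimpleGraph W} (hne : ∃ a b, H.Adj a b)
      (hs : ∀ a b, H.Adj a b → ∃ φ : W → W, Function.Injective φ ∧
        ∀ x y, H.Adj x y → H.Adj (φ x) (φ y) ∧ s(φ x, φ y) ≠ s(a, b)) : Bad H
  | book {W : Type u} {H : SimpleGraph W} (hinf : Infinite W) {a b : W} (hab : a ≠ b)
      (h : ∀ x y, H.Adj x y ↔ x ≠ y ∧ (x = a ∨ x = b ∨ y = a ∨ y = b)) : Bad H
  | core {W : Type u} {H : SimpleGraph W} (L : ℕ∞) (hne : (Pool.Agent.H40F.core H L).Nonempty)
      (hc : Bad (H.induce (Pool.Agent.H40F.core H L))) : Bad H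
  | deg {W : Type u} {H : SimpleGraph W} (μ : Cardinal.{u}) (hμ : μ ≠ 0)
      (hc : Bad (H.induce {x | μ ≤ #(↥(H.neighborSet x))})) : Bad H
  | comp {W : Type u} {H : SimpleGraph W} (C : H.ConnectedComponent)
      (hedge : ∃ x ∈ C.supp, ∃ y, H.Adj x y)
      (hc : Bad (H.induce {x | Emb H C.supp (H.connectedComponentMk x).supp})) : Bad H

theorem edge_of_infinite {W : Type u} {H : SimpleGraph W} (hinf : ¬ H.edgeSet.Finite) :
    ∃ a b, H.Adj a b := by
  by_contra hcon
  push Not at hcon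
  apply hinf
  have : H.edgeSet = ∅ := by
    ext e
    induction e with
    | _ x y =>
      constructor
      · intro h
        exact absurd h (hcon x y)
      · intro h
        exact absurd h (Set.notMem_empty _)
  rw [this]
  exact Set.finite_empty

/-- every graph in the class has an edge and fails -/
theorem Bad.fails {W : Type u} {H : SimpleGraph W} (h : Bad H) :
    Fails.{u} H ∧ ∃ a b, H.Adj a b := by
  induction h with
  | fin hne hfin hst => exact ⟨fails_of_finEdges hfin hst, hne⟩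
  | locFin hlf hinf => exact ⟨fails_of_locFin hlf hinf, edge_of_infinite hinf⟩
  | forest hac hcnt hinf =>
    exact ⟨Pool.Agent.H40F.forest_fails hac hcnt hinf, edge_of_infinite hinf⟩
  | stable hne hs => exact ⟨fails_stable hs, hne⟩
  | @book W H hinf a b hab h =>
    exact ⟨fails_book (a := a) (b := b) ⟨hab, h⟩, a, b, (h a b).2 ⟨hab, Or.inl rfl⟩⟩
  | @core W H L hne hc ih =>
    obtain ⟨h1, a, b, hab⟩ := ih
    exact ⟨Pool.Agent.H40F.B4a L hne h1, a.1, b.1, hab⟩
  | @deg W H μ hμ hc ih =>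
    obtain ⟨h1, a, b, hab⟩ := ih
    exact ⟨Fails.of_bigDeg μ hμ h1 ⟨a, b, hab⟩, a.1, b.1, hab⟩
  | @comp W H C hedge hc ih =>
    obtain ⟨h1, a, b, hab⟩ := ih
    exact ⟨Pool.Agent.H40F.C8 C hedge h1, a.1, b.1, hab⟩

open Pool.Agent.H40F in
/-- a graph with a nonempty locally finite `L`-core is in the class -/
theorem bad_of_locFin_core {W : Type u} {H : SimpleGraph W} (L : ℕ∞) (hne : (core H L).Nonempty)
    (hlf : ∀ x ∈ core H L, {y | y ∈ core H L ∧ H.Adj x y}.Finite) : Bad H := by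
  refine Bad.core L hne ?_
  by_cases hfin : (H.induce (core H L)).edgeSet.Finite
  · obtain ⟨n, f, hn, hf, ha, hc⟩ := cycle_of_core hne
    refine Bad.fin ⟨⟨f 0, hc 0⟩, ⟨f (0 + 1), hc (0 + 1)⟩, ha 0⟩ hfin ?_
    rintro ⟨z, hz⟩
    have hn0 : NeZero n := ⟨by omega⟩
    have key : ∀ a b : ℕ, a < n → b < n → f (a : ZMod n) = f (b : ZMod n) → a = b := by
      intro a b ha' hb' h
      exact b3_cast ha' hb' (hf h)
    have e01 := hz ⟨f 0, hc 0⟩ ⟨f (0 + 1), hc _⟩ (ha 0)
    have e12 := hz ⟨f (0 + 1), hc _⟩ ⟨f (0 + 1 + 1), hc _⟩ (ha (0 + 1))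
    have e23 := hz ⟨f (0 + 1 + 1), hc _⟩ ⟨f (0 + 1 + 1 + 1), hc _⟩ (ha (0 + 1 + 1))
    obtain ⟨z, hzc⟩ := z
    simp only [Subtype.mk.injEq] at e01 e12 e23
    have q0 : f 0 = f ((0 : ℕ) : ZMod n) := by push_cast; rfl
    have q1 : f (0 + 1) = f ((1 : ℕ) : ZMod n) := by push_cast; ring_nf
    have q2 : f (0 + 1 + 1) = f ((2 : ℕ) : ZMod n) := by push_cast; ring_nf
    have n01 : f 0 ≠ f (0 + 1) := fun h => by
      have := key 0 1 (by omega) (by omega) (q0 ▸ q1 ▸ h)
      omega
    have n12 : f (0 + 1) ≠ f (0 + 1 + 1) := fun h => by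
      have := key 1 2 (by omega) (by omega) (q1 ▸ q2 ▸ h)
      omega
    have n02 : f 0 ≠ f (0 + 1 + 1) := fun h => by
      have := key 0 2 (by omega) (by omega) (q0 ▸ q2 ▸ h)
      omega
    have n13 : f (0 + 1) ≠ f (0 + 1 + 1 + 1) := fun h => by
      have h2 : ((2 : ℕ) : ZMod n) = 0 := by
        have := hf h
        push_cast
        linear_combination -this
      rw [ZMod.natCast_eq_zero_iff] at h2
      exact absurd (Nat.le_of_dvd (by omega) h2) (by omega)
    rcases e01 with h | h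
    · rcases e12 with h' | h'
      · exact n01 (h.trans h'.symm)
      · exact n02 (h.trans h'.symm)
    · rcases e23 with h' | h'
      · exact n12 (h.trans h'.symm)
      · exact n13 (h.trans h'.symm)
  · refine Bad.locFin (fun x => ?_) hfin
    have h1 := hlf x.1 x.2
    have h2 : ((H.induce (core H L)).neighborSet x) ⊆ Subtype.val ⁻¹' {y | y ∈ core H L ∧ H.Adj x.1 y} := by
      intro y hy
      exact ⟨y.2, hy⟩
    exact (h1.preimage Subtype.val_injective.injOn).subset h2

end Pool.Agent.H40Z
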